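import Mathlib
import Pool.Agent.Helper771.FreeLieGrad

/-!
# Semidirect products `F ⋉ M` and Fox derivatives of Lie polynomials
-/

set_option autoImplicit false
set_option linter.unusedSectionVars false

namespace Pool.Agent.Q274.DV

open Pool.Agent.Helper771.FreeLieGrad Polynomial

universe u

/-- `F × M` for a module `M` over `F[X]`; the first factor acts by multiplication by `X`. -/
def SD (F : Type u) (M : Type u) : Type u := F × M

section SD

variable {F : Type u} [Field F] {M : Type u} [AddCommGroup M] [Module F M] [Module F[X] M]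
  [IsScalarTower F F[X] M]

instance : AddCommGroup (SD F M) := inferInstanceAs (AddCommGroup (F × M))
instance : Module F (SD F M) := inferInstanceAs (Module F (F × M))

theorem SD.ext' {x y : SD F M} (h1 : x.1 = y.1) (h2 : x.2 = y.2) : x = y := Prod.ext h1 h2

theorem SD.add_fst (x y : SD F M) : (x + y).1 = x.1 + y.1 := rfl
theorem SD.add_snd (x y : SD F M) : (x + y).2 = x.2 + y.2 := rfl
theorem SD.zero_fst : (0 : SD F M).1 = 0 := rfl
theorem SD.zero_snd : (0 : SD F M).2 = 0 := rfl
theorem SD.smul_fst (c : F) (x : SD F M) : (c • x).1 = c * x.1 := rfl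
theorem SD.smul_snd (c : F) (x : SD F M) : (c • x).2 = c • x.2 := rfl

/-- the pair `(c, m)` -/
def SD.mk (c : F) (m : M) : SD F M := (c, m)

theorem SD.mk_fst (c : F) (m : M) : (SD.mk c m).1 = c := rfl
theorem SD.mk_snd (c : F) (m : M) : (SD.mk c m).2 = m := rfl

noncomputable instance : Bracket (SD F M) (SD F M) :=
  ⟨fun x y => (0, y.1 • ((X : F[X]) • x.2) - x.1 • ((X : F[X]) • y.2))⟩

theorem SD.lie_fst (x y : SD F M) : ⁅x, y⁆.1 = 0 := rfl
theorem SD.lie_snd (x y : SD F M) :
    ⁅x, y⁆.2 = y.1 • ((X : F[X]) • x.2) - x.1 • ((X : F[X]) • y.2) := rfl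

theorem smul_X_comm (c : F) (m : M) : (X : F[X]) • (c • m) = c • ((X : F[X]) • m) := by
  rw [← algebraMap_smul F[X] c m, ← algebraMap_smul F[X] c ((X : F[X]) • m), smul_smul, smul_smul,
    mul_comm]

noncomputable instance : LieRing (SD F M) where
  add_lie a b c := by
    refine SD.ext' ?_ ?_
    · simp only [SD.lie_fst, SD.add_fst, add_zero]
    · simp only [SD.lie_snd, SD.add_fst, SD.add_snd, smul_add, add_smul]
      abel
  lie_add a b c := by
    refine SD.ext' ?_ ?_
    · simp only [SD.lie_fst, SD.add_fst, add_zero]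
    · simp only [SD.lie_snd, SD.add_fst, SD.add_snd, smul_add, add_smul]
      abel
  lie_self a := by
    refine SD.ext' ?_ ?_
    · rfl
    · simp only [SD.lie_snd, sub_self, SD.zero_snd]
  leibniz_lie a b c := by
    refine SD.ext' ?_ ?_
    · simp only [SD.lie_fst, SD.add_fst, add_zero]
    · simp only [SD.lie_snd, SD.lie_fst, SD.add_snd, zero_smul, smul_sub, smul_X_comm, smul_smul]
      rw [mul_comm b.1 a.1, mul_comm c.1 b.1]
      rw [mul_comm c.1 a.1]
      abel

noncomputable instance : LieAlgebra F (SD F M) where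
  lie_smul c a b := by
    refine SD.ext' ?_ ?_
    · simp only [SD.lie_fst, SD.smul_fst, mul_zero]
    · simp only [SD.lie_snd, SD.smul_fst, SD.smul_snd, smul_sub, smul_X_comm, smul_smul]
      rw [mul_comm a.1 c]

end SD

section Fox

variable {F : Type u} [Field F]

/-- the `F[X]`-module of finitely supported families of polynomials -/
abbrev FM (F : Type u) [Field F] : Type u := ℕ →₀ F[X]

/-- the universal evaluation `x_i ↦ (a i, e_i)` -/
noncomputable def ev (a : ℕ → F) : FreeLieAlgebra F ℕ →ₗ⁅F⁆ SD F (FM F) :=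
  FreeLieAlgebra.lift F (fun i => SD.mk (a i) (Finsupp.single i 1))

/-- the linear part evaluated at `a` -/
noncomputable def lin (a : ℕ → F) (f : FreeLieAlgebra F ℕ) : F := (ev a f).1

/-- the Fox derivatives evaluated on the line through `a` -/
noncomputable def fox (a : ℕ → F) (f : FreeLieAlgebra F ℕ) : FM F := (ev a f).2

theorem ev_of (a : ℕ → F) (i : ℕ) : ev a (FreeLieAlgebra.of F i) = SD.mk (a i) (Finsupp.single i 1) :=
  FreeLieAlgebra.lift_of_apply _ _

theorem lin_of (a : ℕ → F) (i : ℕ) : lin a (FreeLieAlgebra.of F i) = a i := by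
  rw [lin, ev_of, SD.mk_fst]

theorem fox_of (a : ℕ → F) (i : ℕ) : fox a (FreeLieAlgebra.of F i) = Finsupp.single i 1 := by
  rw [fox, ev_of, SD.mk_snd]

theorem lin_add (a : ℕ → F) (f g : FreeLieAlgebra F ℕ) : lin a (f + g) = lin a f + lin a g := by
  simp only [lin, map_add]; rfl
theorem lin_smul (a : ℕ → F) (c : F) (f) : lin a (c • f) = c * lin a f := by
  simp only [lin, map_smul]; rfl
theorem lin_zero (a : ℕ → F) : lin a 0 = 0 := by
  simp only [lin, map_zero]; rfl
theorem lin_lie (a : ℕ → F) (f g : FreeLieAlgebra F ℕ) : lin a ⁅f, g⁆ = 0 := by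
  simp only [lin, LieHom.map_lie]; rfl
theorem fox_add (a : ℕ → F) (f g : FreeLieAlgebra F ℕ) : fox a (f + g) = fox a f + fox a g := by
  simp only [fox, map_add]; rfl
theorem fox_smul (a : ℕ → F) (c : F) (f) : fox a (c • f) = c • fox a f := by
  simp only [fox, map_smul]; rfl
theorem fox_zero (a : ℕ → F) : fox a 0 = 0 := by
  simp only [fox, map_zero]; rfl
theorem fox_lie (a : ℕ → F) (f g : FreeLieAlgebra F ℕ) :
    fox a ⁅f, g⁆ = lin a g • ((X : F[X]) • fox a f) - lin a f • ((X : F[X]) • fox a g) := by
  simp only [fox, lin, LieHom.map_lie]; rfl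

/-- coefficient `j` of the `l`-th Fox derivative -/
noncomputable def cf (a : ℕ → F) (l j : ℕ) (f : FreeLieAlgebra F ℕ) : F := ((fox a f) l).coeff j

theorem cf_of (a : ℕ → F) (l j i : ℕ) :
    cf a l j (FreeLieAlgebra.of F i) = if j = 0 ∧ i = l then 1 else 0 := by
  rw [cf, fox_of, Finsupp.single_apply]
  by_cases h : i = l
  · rw [if_pos h, Polynomial.coeff_one]
    by_cases hj : j = 0
    · rw [if_pos hj, if_pos ⟨hj, h⟩]
    · rw [if_neg hj, if_neg (fun h' => hj h'.1)]
  · rw [if_neg h, if_neg (fun h' => h h'.2), Polynomial.coeff_zero]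

theorem cf_add (a : ℕ → F) (l j : ℕ) (f g : FreeLieAlgebra F ℕ) : cf a l j (f + g) = cf a l j f + cf a l j g := by
  rw [cf, cf, cf, fox_add, Finsupp.add_apply, Polynomial.coeff_add]
theorem cf_smul (a : ℕ → F) (l j : ℕ) (c : F) (f) : cf a l j (c • f) = c * cf a l j f := by
  rw [cf, cf, fox_smul, Finsupp.smul_apply, Polynomial.coeff_smul, smul_eq_mul]
theorem cf_zero (a : ℕ → F) (l j : ℕ) : cf a l j 0 = 0 := by
  rw [cf, fox_zero, Finsupp.zero_apply, Polynomial.coeff_zero]

theorem cf_lie_zero (a : ℕ → F) (l : ℕ) (f g : FreeLieAlgebra F ℕ) : cf a l 0 ⁅f, g⁆ = 0 := by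
  rw [cf, fox_lie]
  simp only [Finsupp.sub_apply, Finsupp.smul_apply, smul_eq_mul, Polynomial.coeff_sub,
    Polynomial.coeff_smul, Polynomial.coeff_X_mul_zero]
  ring

theorem cf_lie_succ (a : ℕ → F) (l j : ℕ) (f g : FreeLieAlgebra F ℕ) :
    cf a l (j + 1) ⁅f, g⁆ = lin a g * cf a l j f - lin a f * cf a l j g := by
  rw [cf, fox_lie]
  simp only [Finsupp.sub_apply, Finsupp.smul_apply, smul_eq_mul, Polynomial.coeff_sub,
    Polynomial.coeff_smul, Polynomial.coeff_X_mul]
  rfl

/-- The weight used for the total degree. -/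
def w1 : ℕ → ℕ := fun _ => 1

/-- homogeneous elements of degree `d` -/
theorem lin_homog {d : ℕ} (hd : d ≠ 1) {f : FreeLieAlgebra F ℕ} (hf : f ∈ Hom w1 d) (a : ℕ → F) :
    lin a f = 0 := by
  have key := Hom_le (K := F) w1 (T := fun d =>
    { carrier := {z | d ≠ 1 → lin a z = 0}
      add_mem' := by
        intro z z' hz hz' h
        rw [lin_add, hz h, hz' h, add_zero]
      zero_mem' := fun _ => lin_zero a
      smul_mem' := by
        intro c z hz h
        rw [lin_smul, hz h, mul_zero] }) (by
      intro i j z _ z' _ _ _ _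
      exact lin_lie a z z') (by
      intro y h
      exact absurd rfl h) d hf
  exact key hd

theorem cf_homog {d : ℕ} {f : FreeLieAlgebra F ℕ} (hf : f ∈ Hom w1 d) (a : ℕ → F) (l j : ℕ)
    (hj : j + 1 ≠ d) : cf a l j f = 0 := by
  have key := Hom_le (K := F) w1 (T := fun d =>
    { carrier := {z | ∀ j, j + 1 ≠ d → cf a l j z = 0}
      add_mem' := by
        intro z z' hz hz' j h
        rw [cf_add, hz j h, hz' j h, add_zero]
      zero_mem' := fun _ _ => cf_zero a _ _
      smul_mem' := by
        intro c z hz j h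
        rw [cf_smul, hz j h, mul_zero] }) (by
      intro i i' z hz z' hz' hz1 hz1' j h
      rcases j with _ | j
      · exact cf_lie_zero a l z z'
      · rw [cf_lie_succ]
        have h1 : lin a z' * cf a l j z = 0 := by
          by_cases h' : i' = 1
          · rw [hz j (by omega), mul_zero]
          · rw [lin_homog h' hz1', zero_mul]
        have h2 : lin a z * cf a l j z' = 0 := by
          by_cases h' : i = 1
          · rw [hz' j (by omega), mul_zero]
          · rw [lin_homog h' hz1, zero_mul]
        rw [h1, h2, sub_zero]) (by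
      intro y j h
      rw [cf_of, if_neg]
      rintro ⟨h1, _⟩
      apply h
      rw [h1]
      rfl) d hf
  exact key j hj

/-- the coefficients of a homogeneous component -/
theorem cf_comp (f : FreeLieAlgebra F ℕ) (a : ℕ → F) (l j n : ℕ) :
    cf a l j (comp w1 n f) = if j + 1 = n then cf a l j f else 0 := by
  split_ifs with h
  · obtain ⟨N, hN⟩ := exists_bound w1 f
    have h1 := (hN (max N (n + 1)) (le_max_left _ _)).2
    have hadd : ∀ (s : Finset ℕ), cf a l j (∑ m ∈ s, comp w1 m f) = ∑ m ∈ s, cf a l j (comp w1 m f) := by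
      intro s
      classical
      induction s using Finset.induction_on with
      | empty => simp [cf_zero]
      | insert i s hi ih => rw [Finset.sum_insert hi, Finset.sum_insert hi, cf_add, ih]
    conv_rhs => rw [← h1, hadd]
    rw [Finset.sum_eq_single n]
    · intro m _ hm
      exact cf_homog (comp_mem_Hom w1 m f) a l j (by omega)
    · intro hn
      exact absurd (Finset.mem_range.2 (by omega)) hn
  · exact cf_homog (comp_mem_Hom w1 n f) a l j h

/-- evaluation in `SD F M` through the Fox derivatives -/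
theorem lift_SD {M : Type u} [AddCommGroup M] [Module F M] [Module F[X] M]
    [IsScalarTower F F[X] M] (a : ℕ → F) (m : ℕ → M) (f : FreeLieAlgebra F ℕ) :
    FreeLieAlgebra.lift F (fun i => SD.mk (a i) (m i)) f =
      SD.mk (lin a f) (Finsupp.linearCombination F[X] m (fox a f)) := by
  refine free_induction (P := fun f => FreeLieAlgebra.lift F (fun i => SD.mk (a i) (m i)) f =
      SD.mk (lin a f) (Finsupp.linearCombination F[X] m (fox a f))) ?_ ?_ ?_ ?_ ?_ f
  · intro i
    rw [FreeLieAlgebra.lift_of_apply, lin_of, fox_of, Finsupp.linearCombination_single, one_smul]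
  · rw [map_zero, lin_zero, fox_zero, map_zero]; rfl
  · intro f g hf hg
    rw [map_add, hf, hg, lin_add, fox_add, map_add]; rfl
  · intro c f hf
    rw [map_smul, hf, lin_smul, fox_smul]
    refine SD.ext' rfl ?_
    change c • (Finsupp.linearCombination F[X] m) (fox a f) = (Finsupp.linearCombination F[X] m) (c • fox a f)
    rw [← algebraMap_smul F[X] c (fox a f), map_smul, algebraMap_smul]
  · intro f g hf hg
    rw [LieHom.map_lie, hf, hg, lin_lie, fox_lie, map_sub]
    refine SD.ext' rfl ?_
    rw [SD.lie_snd]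
    change lin a g • ((X : F[X]) • (Finsupp.linearCombination F[X] m) (fox a f)) -
      lin a f • ((X : F[X]) • (Finsupp.linearCombination F[X] m) (fox a g)) =
      (Finsupp.linearCombination F[X] m) (lin a g • ((X : F[X]) • fox a f)) -
      (Finsupp.linearCombination F[X] m) (lin a f • ((X : F[X]) • fox a g))
    have h : ∀ (c : F) (p : FM F), (Finsupp.linearCombination F[X] m) (c • p) =
        c • (Finsupp.linearCombination F[X] m) p := by
      intro c p
      rw [← algebraMap_smul F[X] c p, map_smul, algebraMap_smul]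
    rw [h, h, map_smul, map_smul]

end Fox

end Pool.Agent.Q274.DV
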