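import Mathlib
import Pool.Agent.Helper771.FreeLieGrad
import Pool.Agent.Q274.DV.Base

/-!
# Identities of Lie algebras over an infinite field: homogeneous components, Engel identities
-/

set_option autoImplicit false
set_option linter.unusedSectionVars false

namespace Pool.Agent.Q274.DV

open Pool.Agent.Helper771.FreeLieGrad Polynomial

universe u v w

section Vand

variable {F : Type u} [Field F] [Infinite F] {M : Type v} [AddCommGroup M] [Module F M]

/-- a polynomial function with values in a module vanishing identically has zero coefficients -/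
theorem coeff_zero_of_forall (N : ℕ) (v : ℕ → M)
    (h : ∀ c : F, ∑ n ∈ Finset.range N, c ^ n • v n = 0) : ∀ n, n < N → v n = 0 := by
  intro n hn
  rw [← Module.forall_dual_apply_eq_zero_iff F]
  intro φ
  let p : F[X] := ∑ i ∈ Finset.range N, Polynomial.monomial i (φ (v i))
  have hp : p = 0 := by
    apply Polynomial.funext
    intro c
    rw [Polynomial.eval_zero]
    simp only [p, Polynomial.eval_finsetSum, Polynomial.eval_monomial]
    have := congrArg φ (h c)
    rw [map_sum, map_zero] at this
    rw [← this]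
    refine Finset.sum_congr rfl fun i _ => ?_
    rw [map_smul, smul_eq_mul, mul_comm]
  have h2 : p.coeff n = φ (v n) := by
    simp only [p, Polynomial.finsetSum_coeff, Polynomial.coeff_monomial]
    rw [Finset.sum_ite_eq' (Finset.range N) n, if_pos (Finset.mem_range.2 hn)]
  rw [← h2, hp, Polynomial.coeff_zero]

end Vand

section G

variable {F : Type u} [Field F] {B : Type v} [LieRing B] [LieAlgebra F B] {Y : Type w}

/-- the scaling endomorphism `y ↦ c^{w y} y` -/
noncomputable def scale (w : Y → ℕ) (c : F) : FreeLieAlgebra F Y →ₗ⁅F⁆ FreeLieAlgebra F Y :=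
  FreeLieAlgebra.lift F (fun y => c ^ w y • FreeLieAlgebra.of F y)

theorem scale_of (w : Y → ℕ) (c : F) (y : Y) :
    scale w c (FreeLieAlgebra.of F y) = c ^ w y • FreeLieAlgebra.of F y :=
  FreeLieAlgebra.lift_of_apply _ _

theorem scale_hom (w : Y → ℕ) (c : F) {n : ℕ} {z : FreeLieAlgebra F Y} (hz : z ∈ Hom w n) :
    scale w c z = c ^ n • z := by
  have key := Hom_le (K := F) w (T := fun n =>
    { carrier := {z | scale w c z = c ^ n • z}
      add_mem' := by
        intro z z' hz hz'
        change scale w c (z + z') = _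
        have h1 : scale w c z = c ^ n • z := hz
        have h2 : scale w c z' = c ^ n • z' := hz'
        rw [map_add, h1, h2, smul_add]
      zero_mem' := by
        change scale w c 0 = _
        rw [map_zero, smul_zero]
      smul_mem' := by
        intro r z hz
        change scale w c (r • z) = _
        have h1 : scale w c z = c ^ n • z := hz
        rw [map_smul, h1, smul_comm] }) (by
      intro i j z hz z' hz' _ _
      change scale w c ⁅z, z'⁆ = _
      rw [LieHom.map_lie]
      have h1 : scale w c z = c ^ i • z := hz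
      have h2 : scale w c z' = c ^ j • z' := hz'
      rw [h1, h2, smul_lie, lie_smul, smul_smul, pow_add]) (by
      intro y
      exact scale_of w c y) n hz
  exact key

variable [Infinite F]

theorem comp_of_scale (w : Y → ℕ) (E : FreeLieAlgebra F Y →ₗ⁅F⁆ B) (g : FreeLieAlgebra F Y)
    (h : ∀ c : F, E (scale w c g) = 0) (n : ℕ) : E (comp w n g) = 0 := by
  obtain ⟨N, hN⟩ := exists_bound w g
  have h1 := (hN (max N (n + 1)) (le_max_left _ _)).2
  refine coeff_zero_of_forall (F := F) (max N (n + 1)) (fun m => E (comp w m g)) ?_ n (by omega)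
  intro c
  have h2 := h c
  rw [← h1, map_sum, map_sum] at h2
  rw [← h2]
  refine Finset.sum_congr rfl fun m _ => ?_
  rw [scale_hom w c (comp_mem_Hom w m g), map_smul]

end G

section Ident

variable {F : Type u} [Field F] {B : Type u} [LieRing B] [LieAlgebra F B]

/-- right multiplication by `x` -/
noncomputable def T (F : Type u) [Field F] {B : Type u} [LieRing B] [LieAlgebra F B] (x : B) :
    B →ₗ[F] B := -(LieAlgebra.ad F B x)

theorem T_apply (x v : B) : T F x v = ⁅v, x⁆ := by
  rw [T, LinearMap.neg_apply, LieAlgebra.ad_apply, lie_skew]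

/-- weights on `ℕ ⊕ ℕ` -/
def w01 : ℕ ⊕ ℕ → ℕ := Sum.elim (fun _ => 0) (fun _ => 1)

/-- `x_i ↦ y_i + z_i` -/
noncomputable def dbl : FreeLieAlgebra F ℕ →ₗ⁅F⁆ FreeLieAlgebra F (ℕ ⊕ ℕ) :=
  FreeLieAlgebra.lift F (fun i => FreeLieAlgebra.of F (Sum.inl i) + FreeLieAlgebra.of F (Sum.inr i))

theorem dbl_of (i : ℕ) : dbl (FreeLieAlgebra.of F i) =
    FreeLieAlgebra.of F (Sum.inl i) + FreeLieAlgebra.of F (Sum.inr i) :=
  FreeLieAlgebra.lift_of_apply _ _

/-- `y_i ↦ a_i x`, `z_l ↦ y` -/
noncomputable def E2 (a : ℕ → F) (l : ℕ) (x y : B) : FreeLieAlgebra F (ℕ ⊕ ℕ) →ₗ⁅F⁆ B :=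
  FreeLieAlgebra.lift F (Sum.elim (fun i => a i • x) (fun i => if i = l then y else 0))

theorem E2_inl (a : ℕ → F) (l : ℕ) (x y : B) (i : ℕ) :
    E2 a l x y (FreeLieAlgebra.of F (Sum.inl i)) = a i • x :=
  FreeLieAlgebra.lift_of_apply _ _

theorem E2_inr (a : ℕ → F) (l : ℕ) (x y : B) (i : ℕ) :
    E2 a l x y (FreeLieAlgebra.of F (Sum.inr i)) = if i = l then y else 0 :=
  FreeLieAlgebra.lift_of_apply _ _

theorem E2_comp (a : ℕ → F) (l : ℕ) (x y : B) (f : FreeLieAlgebra F ℕ) :
    E2 a l x y (comp w01 0 (dbl f)) = lin a f • x ∧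
    E2 a l x y (comp w01 1 (dbl f)) = (aeval (T F x) (fox a f l)) y := by
  refine free_induction (P := fun f => E2 a l x y (comp w01 0 (dbl f)) = lin a f • x ∧
    E2 a l x y (comp w01 1 (dbl f)) = (aeval (T F x) (fox a f l)) y) ?_ ?_ ?_ ?_ ?_ f
  · intro i
    rw [dbl_of]
    constructor
    · rw [map_add, map_add, comp_of, comp_of, if_pos (by rfl), if_neg (by simp [w01]), map_zero,
        add_zero, E2_inl, lin_of]
    · rw [map_add, map_add, comp_of, comp_of, if_neg (by simp [w01]), if_pos (by rfl), map_zero,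
        zero_add, E2_inr, fox_of, Finsupp.single_apply]
      split_ifs with h
      · rw [map_one, Module.End.one_apply]
      · rw [map_zero, LinearMap.zero_apply]
  · constructor
    · rw [map_zero, map_zero, map_zero, lin_zero, zero_smul]
    · rw [map_zero, map_zero, map_zero, fox_zero, Finsupp.zero_apply, map_zero, LinearMap.zero_apply]
  · rintro f g ⟨hf0, hf1⟩ ⟨hg0, hg1⟩
    constructor
    · rw [map_add, map_add, map_add, hf0, hg0, lin_add, add_smul]
    · rw [map_add, map_add, map_add, hf1, hg1, fox_add, Finsupp.add_apply, map_add,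
        LinearMap.add_apply]
  · rintro c f ⟨hf0, hf1⟩
    constructor
    · rw [map_smul, map_smul, map_smul, hf0, lin_smul, mul_smul]
    · rw [map_smul, map_smul, map_smul, hf1, fox_smul, Finsupp.smul_apply, map_smul,
        LinearMap.smul_apply]
  · rintro f g ⟨hf0, hf1⟩ ⟨hg0, hg1⟩
    constructor
    · rw [LieHom.map_lie, comp_lie, lin_lie, zero_smul]
      rw [Finset.Nat.antidiagonal_zero, Finset.sum_singleton, LieHom.map_lie, hf0, hg0, smul_lie,
        lie_smul, lie_self, smul_zero, smul_zero]
    · rw [LieHom.map_lie, comp_lie]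
      have h1 : Finset.HasAntidiagonal.antidiagonal 1 = {((0 : ℕ), (1 : ℕ)), (1, 0)} := by decide
      rw [h1, Finset.sum_insert (by decide), Finset.sum_singleton, map_add, LieHom.map_lie,
        LieHom.map_lie, hf0, hg0, hf1, hg1, fox_lie, Finsupp.sub_apply, Finsupp.smul_apply,
        Finsupp.smul_apply, Finsupp.smul_apply, Finsupp.smul_apply, smul_eq_mul, smul_eq_mul,
        map_sub, map_smul, map_smul, map_mul, map_mul, aeval_X, LinearMap.sub_apply,
        LinearMap.smul_apply, LinearMap.smul_apply, Module.End.mul_apply, Module.End.mul_apply,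
        T_apply, T_apply, smul_lie, lie_smul,
        ← lie_skew ((aeval (T F x)) ((fox a g) l) y) x]
      rw [smul_neg]
      abel

/-- `f` is an identity of `B` -/
def IsId (B : Type u) [LieRing B] [LieAlgebra F B] (f : FreeLieAlgebra F ℕ) : Prop :=
  ∀ b : ℕ → B, FreeLieAlgebra.lift F b f = 0

theorem isId_hom {f : FreeLieAlgebra F ℕ} (hf : IsId B f) (g : FreeLieAlgebra F ℕ →ₗ⁅F⁆ B) :
    g f = 0 := by
  have := hf (fun i => g (FreeLieAlgebra.of F i))
  rw [← this]
  congr 1
  apply FreeLieAlgebra.hom_ext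
  intro i
  rw [FreeLieAlgebra.lift_of_apply]

variable [Infinite F]

theorem aeval_fox_eq_zero {f : FreeLieAlgebra F ℕ} (hf : IsId B f) (a : ℕ → F) (l : ℕ) (x y : B) :
    (aeval (T F x) (fox a f l)) y = 0 := by
  rw [← (E2_comp a l x y f).2]
  refine comp_of_scale w01 (E2 a l x y) (dbl f) (fun c => ?_) 1
  exact isId_hom hf (((E2 a l x y).comp (scale w01 c)).comp dbl)

theorem isId_comp {f : FreeLieAlgebra F ℕ} (hf : IsId B f) (n : ℕ) : IsId B (comp w1 n f) := by
  intro b
  refine comp_of_scale w1 (FreeLieAlgebra.lift F b) f (fun c => ?_) n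
  exact isId_hom hf ((FreeLieAlgebra.lift F b).comp (scale w1 c))

end Ident

end Pool.Agent.Q274.DV
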