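import Mathlib
import Pool.Agent.Helper771.FreeLieGrad
import Pool.Agent.Q274.DV.Ident

/-!
# Metabelian Lie algebras with an Engel identity
-/

set_option autoImplicit false
set_option linter.unusedSectionVars false

namespace Pool.Agent.Q274.DV

open Pool.Agent.Helper771.FreeLieGrad Polynomial

universe u v w

section Engel

variable {F : Type u} [Field F] [Infinite F] {B : Type u} [LieRing B] [LieAlgebra F B]

theorem engel_of_id {f : FreeLieAlgebra F ℕ} {k : ℕ} (hf : IsId B f) (a : ℕ → F) (l : ℕ)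
    (hc : cf a l k f ≠ 0) (x y : B) : ((T F x) ^ k) y = 0 := by
  have h1 := aeval_fox_eq_zero (isId_comp hf (k + 1)) a l x y
  have h2 : fox a (comp w1 (k + 1) f) l = Polynomial.C (cf a l k f) * X ^ k := by
    ext j
    change cf a l j (comp w1 (k + 1) f) = _
    rw [cf_comp, Polynomial.coeff_C_mul, Polynomial.coeff_X_pow]
    by_cases h : j = k
    · rw [if_pos (by omega), if_pos h, mul_one, h]
    · rw [if_neg (by omega), if_neg h, mul_zero]
  rw [h2, map_mul, aeval_C, map_pow, aeval_X, Module.End.mul_apply,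
    Module.algebraMap_end_apply] at h1
  exact (smul_eq_zero.1 h1).resolve_left hc

end Engel

section Polar

variable {F : Type u} [Field F] [CharZero F] {A : Type v} [Ring A] [Algebra F A]
  {B : Type w} [AddCommGroup B] [Module F B]

theorem polar (t : B →ₗ[F] A) (hc : ∀ x z, Commute (t x) (t z)) (m : ℕ)
    (h : ∀ x, (t x) ^ m = 0) : ∀ j, j ≤ m → ∀ xs : List B, xs.length = j → ∀ x,
      (xs.map t).prod * (t x) ^ (m - j) = 0 := by
  intro j
  induction j with
  | zero =>
    intro _ xs hxs x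
    rw [List.length_eq_zero_iff.1 hxs]
    simp [h x]
  | succ j ih =>
    intro hj xs hxs x
    rcases List.eq_nil_or_concat xs with h0 | ⟨ys, z, rfl⟩
    · rw [h0] at hxs
      simp at hxs
    · rw [List.length_concat] at hxs
      have hys : ys.length = j := by omega
      obtain ⟨n, hn⟩ : ∃ n, m - j = n + 1 := ⟨m - j - 1, by omega⟩
      have hn' : m - (j + 1) = n := by omega
      rw [hn', List.concat_eq_append, List.map_append, List.prod_append, List.map_singleton,
        List.prod_singleton]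
      have key := coeff_zero_of_forall (F := F) (n + 2)
        (fun i => (ys.map t).prod * ((t z) ^ i * (t x) ^ (n + 1 - i) * ((n + 1).choose i : A)))
        (by
          intro c
          have h1 := ih (by omega) ys hys (c • z + x)
          rw [hn, map_add, map_smul,
            ((hc z x).smul_left c).add_pow, Finset.mul_sum] at h1
          rw [← h1]
          refine Finset.sum_congr rfl fun i _ => ?_
          rw [_root_.smul_pow, smul_mul_assoc, smul_mul_assoc, mul_smul_comm]) 1 (by omega)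
      simp only [pow_one, Nat.add_sub_cancel, Nat.choose_one_right] at key
      have h2 : ((n + 1 : ℕ) : F) ≠ 0 := by exact_mod_cast Nat.succ_ne_zero n
      have h3 : ((n + 1 : ℕ) : F) • ((ys.map t).prod * t z * (t x) ^ n) = 0 := by
        rw [Algebra.smul_def, map_natCast, (Nat.cast_commute (n + 1) _).eq, ← key]
        simp only [mul_assoc]
      exact (smul_eq_zero.1 h3).resolve_left h2

end Polar

section Metab

variable {F : Type u} [Field F] {B : Type u} [LieRing B] [LieAlgebra F B]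

/-- metabelian Lie algebras -/
def Metab (B : Type u) [LieRing B] : Prop := ∀ a b c d : B, ⁅⁅a, b⁆, ⁅c, d⁆⁆ = 0

/-- lower central series -/
def J (F : Type u) [Field F] (B : Type u) [LieRing B] [LieAlgebra F B] : ℕ → Submodule F B
  | 0 => ⊤
  | n + 1 => Submodule.span F {v | ∃ z ∈ J F B n, ∃ x, v = ⁅z, x⁆}

theorem lie_mem_J {n : ℕ} {z : B} (hz : z ∈ J F B n) (x : B) : ⁅z, x⁆ ∈ J F B (n + 1) :=
  Submodule.subset_span ⟨z, hz, x, rfl⟩

theorem lie_mem_J1 (z x : B) : ⁅z, x⁆ ∈ J F B 1 := lie_mem_J (n := 0) (F := F) (B := B) Submodule.mem_top x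

theorem J_succ_le (n : ℕ) : J F B (n + 1) ≤ J F B 1 := by
  refine Submodule.span_le.2 ?_
  rintro v ⟨z, _, x, rfl⟩
  exact lie_mem_J1 z x

theorem J1_lie (hm : Metab B) {u v : B} (hu : u ∈ J F B 1) (hv : v ∈ J F B 1) : ⁅u, v⁆ = 0 := by
  refine Submodule.span_induction (p := fun u _ => ⁅u, v⁆ = 0) ?_ ?_ ?_ ?_ hu
  · rintro u ⟨a, _, b, rfl⟩
    refine Submodule.span_induction (p := fun v _ => ⁅⁅a, b⁆, v⁆ = 0) ?_ ?_ ?_ ?_ hv
    · rintro v ⟨c, _, d, rfl⟩
      exact hm a b c d
    · exact lie_zero _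
    · intro v v' _ _ h h'
      rw [lie_add, h, h', add_zero]
    · intro c v _ h
      rw [lie_smul, h, smul_zero]
  · exact zero_lie _
  · intro v v' _ _ h h'
    rw [add_lie, h, h', add_zero]
  · intro c v _ h
    rw [smul_lie, h, smul_zero]

theorem T_mem_J1 (x v : B) : T F x v ∈ J F B 1 := by
  rw [T_apply]
  exact lie_mem_J1 v x

theorem T_comm (hm : Metab B) (x z : B) {v : B} (hv : v ∈ J F B 1) :
    T F x (T F z v) = T F z (T F x v) := by
  rw [T_apply, T_apply, T_apply, T_apply, lie_lie v z x, J1_lie hm hv (lie_mem_J1 z x)]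
  rw [zero_sub, lie_skew]

theorem T_comm_pow (hm : Metab B) (x z : B) (n : ℕ) : ∀ v ∈ J F B 1,
    T F z (((T F x) ^ n) v) = ((T F x) ^ n) (T F z v) := by
  induction n with
  | zero =>
    intro v _
    rfl
  | succ n ih =>
    intro v hv
    rw [pow_succ, Module.End.mul_apply, Module.End.mul_apply, ih _ (T_mem_J1 x v), T_comm hm z x hv]

/-- evaluation of homogeneous elements -/
theorem eval_mem_J (hm : Metab B) (b : ℕ → B) {n : ℕ} {z : FreeLieAlgebra F ℕ}
    (hz : z ∈ Hom w1 (n + 1)) : FreeLieAlgebra.lift F b z ∈ J F B n := by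
  have key := Hom_le (K := F) w1 (T := fun d =>
    (J F B (d - 1)).comap (FreeLieAlgebra.lift F b : FreeLieAlgebra F ℕ →ₗ[F] B)) (by
      intro i j z hz z' hz' hz1 hz1'
      change FreeLieAlgebra.lift F b ⁅z, z'⁆ ∈ J F B (i + j - 1)
      rw [LieHom.map_lie]
      have h1 : FreeLieAlgebra.lift F b z ∈ J F B (i - 1) := hz
      have h2 : FreeLieAlgebra.lift F b z' ∈ J F B (j - 1) := hz'
      rcases i with _ | _ | i
      · rw [Hom_zero w1 (fun _ => le_rfl) hz1, map_zero, zero_lie]
        exact Submodule.zero_mem _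
      · rcases j with _ | j
        · rw [Hom_zero w1 (fun _ => le_rfl) hz1', map_zero, lie_zero]
          exact Submodule.zero_mem _
        · rw [← lie_skew]
          have : 0 + 1 + (j + 1) - 1 = (j + 1 - 1) + 1 := by omega
          rw [this]
          exact Submodule.neg_mem _ (lie_mem_J h2 _)
      · rcases j with _ | _ | j
        · rw [Hom_zero w1 (fun _ => le_rfl) hz1', map_zero, lie_zero]
          exact Submodule.zero_mem _
        · have : i + 1 + 1 + (0 + 1) - 1 = (i + 1 + 1 - 1) + 1 := by omega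
          rw [this]
          exact lie_mem_J h1 _
        · rw [J1_lie hm (J_succ_le i h1) (J_succ_le j h2)]
          exact Submodule.zero_mem _) (by
      intro y
      exact Submodule.mem_top) (n + 1) hz
  exact key

/-- weights on three letters -/
def w3 : Fin 3 → ℕ := ![0, 0, 1]

/-- the elements `[y, (x+z), …, (x+z)]` -/
noncomputable def gE (F : Type u) [Field F] : ℕ → FreeLieAlgebra F (Fin 3)
  | 0 => FreeLieAlgebra.of F 0
  | n + 1 => ⁅gE F n, FreeLieAlgebra.of F 1 + FreeLieAlgebra.of F 2⁆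

/-- the evaluation `y, x, z` -/
noncomputable def E3 (x y z : B) : FreeLieAlgebra F (Fin 3) →ₗ⁅F⁆ B :=
  FreeLieAlgebra.lift F ![y, x, z]

theorem E3_0 (x y z : B) : E3 x y z (FreeLieAlgebra.of F 0) = y :=
  FreeLieAlgebra.lift_of_apply _ _
theorem E3_1 (x y z : B) : E3 x y z (FreeLieAlgebra.of F 1) = x :=
  FreeLieAlgebra.lift_of_apply _ _
theorem E3_2 (x y z : B) : E3 x y z (FreeLieAlgebra.of F 2) = z :=
  FreeLieAlgebra.lift_of_apply _ _

theorem E3_scale (x y z : B) (c : F) (n : ℕ) :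
    E3 x y z (scale w3 c (gE F n)) = ((T F (x + c • z)) ^ n) y := by
  induction n with
  | zero =>
    rw [gE, scale_of, map_smul, E3_0]
    simp [w3]
  | succ n ih =>
    rw [gE, LieHom.map_lie, LieHom.map_lie, ih, map_add, map_add, scale_of, scale_of, map_smul,
      map_smul, E3_1, E3_2, pow_succ', Module.End.mul_apply, T_apply]
    simp [w3]

theorem gE_comp0 (x y z : B) (n : ℕ) :
    E3 x y z (comp w3 0 (gE F n)) = ((T F x) ^ n) y := by
  induction n with
  | zero =>
    rw [gE, comp_of, if_pos (by rfl), E3_0]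
    rfl
  | succ n ih =>
    rw [gE, comp_lie, Finset.Nat.antidiagonal_zero, Finset.sum_singleton, LieHom.map_lie, ih,
      map_add, comp_of, comp_of, if_pos (by rfl), if_neg (by simp [w3]), add_zero, E3_1, pow_succ',
      Module.End.mul_apply, T_apply]

theorem gE_comp1 (x y z : B) (n : ℕ) :
    E3 x y z (comp w3 1 (gE F (n + 1))) =
      T F x (E3 x y z (comp w3 1 (gE F n))) + T F z (((T F x) ^ n) y) := by
  have h1 : Finset.HasAntidiagonal.antidiagonal 1 = {((0 : ℕ), (1 : ℕ)), (1, 0)} := by decide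
  have h2 : E3 x y z (comp w3 1 (FreeLieAlgebra.of F 1 + FreeLieAlgebra.of F 2)) = z := by
    rw [map_add, comp_of, comp_of, if_neg (by simp [w3]), if_pos (by rfl), zero_add, E3_2]
  have h3 : E3 x y z (comp w3 0 (FreeLieAlgebra.of F 1 + FreeLieAlgebra.of F 2)) = x := by
    rw [map_add, comp_of, comp_of, if_pos (by rfl), if_neg (by simp [w3]), add_zero, E3_1]
  rw [gE, comp_lie, h1, Finset.sum_insert (by decide), Finset.sum_singleton, map_add,
    LieHom.map_lie, LieHom.map_lie, gE_comp0, h2, h3, T_apply, T_apply, add_comm]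

theorem gE_comp1_zero (x y z : B) : E3 x y z (comp w3 1 (gE F 0)) = 0 := by
  rw [gE, comp_of, if_neg (by simp [w3]), map_zero]

theorem gE_comp1_metab (hm : Metab B) (x y z : B) (n : ℕ) :
    E3 x y z (comp w3 1 (gE F (n + 2))) =
      ((T F x) ^ (n + 1)) ⁅y, z⁆ + ((n + 1 : ℕ) : F) • ((T F x) ^ n) (T F z ⁅y, x⁆) := by
  induction n with
  | zero =>
    rw [gE_comp1, gE_comp1, gE_comp1_zero, map_zero, zero_add, pow_zero, Module.End.one_apply,
      zero_add, pow_one, T_apply (F := F) z y, T_apply (F := F) x y, Nat.cast_one, one_smul,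
      Module.End.one_apply]
  | succ n ih =>
    rw [gE_comp1, ih, map_add, map_smul]
    have h1 : T F x (((T F x) ^ (n + 1)) ⁅y, z⁆) = ((T F x) ^ (n + 1 + 1)) ⁅y, z⁆ := by
      rw [pow_succ' (T F x) (n + 1), Module.End.mul_apply]
    have h2 : T F x (((T F x) ^ n) (T F z ⁅y, x⁆)) = ((T F x) ^ (n + 1)) (T F z ⁅y, x⁆) := by
      rw [pow_succ' (T F x) n, Module.End.mul_apply]
    have h3 : T F z (((T F x) ^ (n + 2)) y) = ((T F x) ^ (n + 1)) (T F z ⁅y, x⁆) := by
      rw [pow_succ (T F x) (n + 1), Module.End.mul_apply, T_comm_pow hm x z (n + 1) _ (T_mem_J1 x y),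
        T_apply (F := F) x y]
    rw [h1, h2, h3, add_assoc]
    congr 1
    rw [Nat.cast_succ (n + 1), add_smul, one_smul]

variable [CharZero F]

theorem engel_step (hm : Metab B) {m : ℕ} (h : ∀ x y : B, ((T F x) ^ (m + 1)) y = 0) (x y z : B) :
    ((T F x) ^ m) ⁅y, z⁆ = 0 := by
  have hE : ∀ y z : B, E3 x y z (comp w3 1 (gE F (m + 1))) = 0 := by
    intro y z
    refine comp_of_scale w3 (E3 x y z) (gE F (m + 1)) (fun c => ?_) 1
    rw [E3_scale, h]
  rcases m with _ | m
  · have := hE y z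
    rw [gE_comp1, gE_comp1_zero, map_zero, zero_add, pow_zero, Module.End.one_apply, T_apply] at this
    exact this
  · have h1 := hE y z
    have h2 := hE z y
    rw [gE_comp1_metab hm] at h1 h2
    have h3 : T F z ⁅y, x⁆ - T F y ⁅z, x⁆ = T F x ⁅y, z⁆ := by
      have hj := lie_jacobi x y z
      have e1 : ⁅⁅y, x⁆, z⁆ = ⁅z, ⁅x, y⁆⁆ := by
        rw [← lie_skew ⁅y, x⁆ z, ← lie_skew y x, lie_neg, neg_neg]
      have e2 : ⁅⁅z, x⁆, y⁆ = -⁅y, ⁅z, x⁆⁆ := (lie_skew _ _).symm
      have e3 : ⁅⁅y, z⁆, x⁆ = -⁅x, ⁅y, z⁆⁆ := (lie_skew _ _).symm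
      rw [T_apply, T_apply, T_apply, e1, e2, e3, eq_neg_iff_add_eq_zero, ← hj]
      abel
    have h4 : ((m + 1 + 2 : ℕ) : F) • ((T F x) ^ (m + 1)) ⁅y, z⁆ = 0 := by
      have h5 : ((m + 1 + 2 : ℕ) : F) • ((T F x) ^ (m + 1)) ⁅y, z⁆ =
          (((T F x) ^ (m + 1)) ⁅y, z⁆ + ((m + 1 : ℕ) : F) • ((T F x) ^ m) (T F z ⁅y, x⁆)) -
          (((T F x) ^ (m + 1)) ⁅z, y⁆ + ((m + 1 : ℕ) : F) • ((T F x) ^ m) (T F y ⁅z, x⁆)) := by
        have h6 : ((m + 1 : ℕ) : F) • ((T F x) ^ m) (T F z ⁅y, x⁆) -
            ((m + 1 : ℕ) : F) • ((T F x) ^ m) (T F y ⁅z, x⁆) =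
            ((m + 1 : ℕ) : F) • ((T F x) ^ (m + 1)) ⁅y, z⁆ := by
          rw [← smul_sub, ← map_sub, h3, pow_succ, Module.End.mul_apply]
        have h7 : ((T F x) ^ (m + 1)) ⁅z, y⁆ = -((T F x) ^ (m + 1)) ⁅y, z⁆ := by
          rw [← lie_skew, map_neg]
        rw [h7]
        have h8 : ((m + 1 + 2 : ℕ) : F) • ((T F x) ^ (m + 1)) ⁅y, z⁆ =
            ((m + 1 : ℕ) : F) • ((T F x) ^ (m + 1)) ⁅y, z⁆ + ((T F x) ^ (m + 1)) ⁅y, z⁆ +
              ((T F x) ^ (m + 1)) ⁅y, z⁆ := by
          push_cast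
          rw [add_smul _ (2 : F), two_smul]
          abel
        rw [h8, ← h6]
        abel
      rw [h5, h1, h2, sub_zero]
    exact (smul_eq_zero.1 h4).resolve_left (Nat.cast_ne_zero.2 (by omega))

theorem J_le_span (n : ℕ) : J F B (n + 1) ≤
    Submodule.span F {v | ∃ xs : List B, xs.length = n ∧ ∃ u ∈ J F B 1, v = (xs.map (T F)).prod u} := by
  induction n with
  | zero =>
    intro v hv
    exact Submodule.subset_span ⟨[], rfl, v, hv, by simp⟩
  | succ n ih =>
    refine Submodule.span_le.2 ?_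
    rintro v ⟨z, hz, x, rfl⟩
    have h1 := ih hz
    refine Submodule.span_induction (p := fun z _ => ⁅z, x⁆ ∈ Submodule.span F
      {v | ∃ xs : List B, xs.length = n + 1 ∧ ∃ u ∈ J F B 1, v = (xs.map (T F)).prod u})
      ?_ ?_ ?_ ?_ h1
    · rintro z ⟨xs, hxs, u, hu, rfl⟩
      refine Submodule.subset_span ⟨x :: xs, by rw [List.length_cons, hxs], u, hu, ?_⟩
      rw [List.map_cons, List.prod_cons, Module.End.mul_apply, T_apply]
    · rw [zero_lie]; exact Submodule.zero_mem _
    · intro a b _ _ ha hb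
      rw [add_lie]; exact Submodule.add_mem _ ha hb
    · intro c a _ ha
      rw [smul_lie]; exact Submodule.smul_mem _ _ ha

/-- the action on the derived algebra -/
noncomputable def tJ : B →ₗ[F] Module.End F (J F B 1) where
  toFun x := (T F x).restrict (p := J F B 1) (q := J F B 1) (fun v _ => T_mem_J1 x v)
  map_add' x y := by
    ext v
    simp only [LinearMap.coe_restrict_apply, LinearMap.add_apply, T_apply, lie_add,
      Submodule.coe_add]
  map_smul' c x := by
    ext v
    simp only [LinearMap.coe_restrict_apply, LinearMap.smul_apply, T_apply, lie_smul,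
      Submodule.coe_smul, RingHom.id_apply]

theorem tJ_apply (x : B) (v : J F B 1) : ((tJ x v : J F B 1) : B) = T F x v := rfl

theorem tJ_pow (x : B) (n : ℕ) (v : J F B 1) : (((tJ (F := F) x) ^ n) v : B) = ((T F x) ^ n) v := by
  induction n generalizing v with
  | zero => rfl
  | succ n ih =>
    rw [pow_succ, pow_succ, Module.End.mul_apply, Module.End.mul_apply, ih, tJ_apply]

theorem tJ_prod (xs : List B) (v : J F B 1) :
    (((xs.map (tJ (F := F))).prod v : J F B 1) : B) = ((xs.map (T F)).prod) v := by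
  induction xs with
  | nil => rfl
  | cons x xs ih =>
    rw [List.map_cons, List.map_cons, List.prod_cons, List.prod_cons, Module.End.mul_apply,
      Module.End.mul_apply, tJ_apply, ih]

theorem J_eq_bot (hm : Metab B) {k : ℕ} (h : ∀ x y : B, ((T F x) ^ k) y = 0) {v : B}
    (hv : v ∈ J F B k) : v = 0 := by
  rcases k with _ | m
  · exact h v v
  · have h1 : ∀ x : B, (tJ (F := F) x) ^ m = 0 := by
      intro x
      ext ⟨u, hu⟩
      rw [tJ_pow, LinearMap.zero_apply]
      change ((T F x) ^ m) u = 0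
      refine Submodule.span_induction (p := fun u _ => ((T F x) ^ m) u = 0) ?_ ?_ ?_ ?_ hu
      · rintro u ⟨y, _, z, rfl⟩
        exact engel_step hm h x y z
      · exact map_zero _
      · intro a b _ _ ha hb
        rw [map_add, ha, hb, add_zero]
      · intro c a _ ha
        rw [map_smul, ha, smul_zero]
    have h2 : ∀ x z : B, Commute (tJ (F := F) x) (tJ z) := by
      intro x z
      ext v
      change T F x (T F z v) = T F z (T F x v)
      exact T_comm hm x z v.2
    have h3 := polar (F := F) (tJ (F := F) (B := B)) h2 m h1 m le_rfl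
    have h4 := J_le_span m hv
    refine Submodule.span_induction (p := fun v _ => v = 0) ?_ ?_ ?_ ?_ h4
    · rintro v ⟨xs, hxs, u, hu, rfl⟩
      have h5 := h3 xs hxs 0
      rw [Nat.sub_self, pow_zero, mul_one] at h5
      have h6 := tJ_prod (F := F) xs ⟨u, hu⟩
      rw [h5] at h6
      exact h6.symm
    · rfl
    · intro a b _ _ ha hb
      rw [ha, hb, add_zero]
    · intro c a _ ha
      rw [ha, smul_zero]

/-- in a metabelian Lie algebra with the Engel identity of degree `k + 1` every element of degree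
at least `k + 1` is an identity. -/
theorem isId_of_engel (hm : Metab B) {k : ℕ} (h : ∀ x y : B, ((T F x) ^ k) y = 0) {d : ℕ}
    (hd : k + 1 ≤ d) {z : FreeLieAlgebra F ℕ} (hz : z ∈ Hom w1 d) : IsId B z := by
  intro b
  obtain ⟨n, rfl⟩ : ∃ n, d = n + 1 := ⟨d - 1, by omega⟩
  have h' : ∀ x y : B, ((T F x) ^ n) y = 0 := by
    intro x y
    obtain ⟨r, rfl⟩ : ∃ r, n = r + k := ⟨n - k, by omega⟩
    rw [pow_add, Module.End.mul_apply, h, map_zero]
  exact J_eq_bot hm h' (eval_mem_J hm b hz)

end Metab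

end Pool.Agent.Q274.DV
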