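import Mathlib
import Pool.Agent.Helper771.FreeLieGrad
import Pool.Agent.Q274.DV.Engel

/-!
# The T-ideals `Tset c` and their Lie algebras
-/

set_option autoImplicit false
set_option linter.unusedSectionVars false

namespace Pool.Agent.Q274.DV

open Pool.Agent.Helper771.FreeLieGrad Polynomial

universe u v w

section TSet

variable {F : Type u} [Field F]

/-- the Lie polynomials whose Fox derivatives vanish up to order `c` -/
def Tset (F : Type u) [Field F] (c : ℕ) : Set (FreeLieAlgebra F ℕ) :=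
  {f | ∀ (a : ℕ → F) (l j : ℕ), j < c → cf a l j f = 0}

/-- the linear part from the constant terms of the Fox derivatives -/
noncomputable def Lam (a : ℕ → F) : FM F →ₗ[F] F :=
  Finsupp.lsum F (fun l => a l • Polynomial.lcoeff F 0)

theorem Lam_X_smul (a : ℕ → F) (p : FM F) : Lam a ((X : F[X]) • p) = 0 := by
  induction p using Finsupp.induction_linear with
  | zero => rw [smul_zero, map_zero]
  | add p q hp hq => rw [smul_add, map_add, hp, hq, add_zero]
  | single l q =>
    rw [Finsupp.smul_single, Lam, Finsupp.lsum_single, LinearMap.smul_apply, Polynomial.lcoeff_apply,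
      smul_eq_mul, smul_eq_mul, Polynomial.coeff_X_mul_zero, mul_zero]

theorem lin_eq_Lam (a : ℕ → F) (f : FreeLieAlgebra F ℕ) : lin a f = Lam a (fox a f) := by
  refine free_induction (P := fun f => lin a f = Lam a (fox a f)) ?_ ?_ ?_ ?_ ?_ f
  · intro i
    rw [lin_of, fox_of, Lam, Finsupp.lsum_single, LinearMap.smul_apply, Polynomial.lcoeff_apply,
      Polynomial.coeff_one_zero, smul_eq_mul, mul_one]
  · rw [lin_zero, fox_zero, map_zero]
  · intro f g hf hg
    rw [lin_add, fox_add, map_add, hf, hg]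
  · intro c f hf
    rw [lin_smul, fox_smul, map_smul, hf, smul_eq_mul]
  · intro f g _ _
    have h1 : Lam a (lin a g • ((X : F[X]) • fox a f)) = lin a g • Lam a ((X : F[X]) • fox a f) :=
      LinearMap.map_smul (Lam a) _ _
    have h2 : Lam a (lin a f • ((X : F[X]) • fox a g)) = lin a f • Lam a ((X : F[X]) • fox a g) :=
      LinearMap.map_smul (Lam a) _ _
    rw [lin_lie, fox_lie, map_sub, h1, h2, Lam_X_smul, Lam_X_smul, smul_zero, smul_zero,
      sub_zero]

theorem lin_eq_zero {a : ℕ → F} {f : FreeLieAlgebra F ℕ} (h : ∀ l, cf a l 0 f = 0) :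
    lin a f = 0 := by
  rw [lin_eq_Lam]
  have : Lam a (fox a f) = (fox a f).sum (fun l p => (a l • Polynomial.lcoeff F 0) p) := by
    rw [Lam, Finsupp.lsum_apply]
  rw [this]
  refine Finset.sum_eq_zero fun l _ => ?_
  dsimp only
  rw [LinearMap.smul_apply, Polynomial.lcoeff_apply]
  have := h l
  rw [cf] at this
  rw [this, smul_zero]

theorem Tset_anti {c c' : ℕ} (h : c ≤ c') : Tset F c' ⊆ Tset F c :=
  fun _ hf a l j hj => hf a l j (by omega)

theorem comp_mem_Tset {c n : ℕ} (m : ℕ) {f : FreeLieAlgebra F ℕ} (hf : f ∈ Tset F c) (hn : n ≤ c) :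
    comp w1 n f ∈ Tset F m := by
  intro a l j _
  rw [cf_comp]
  split_ifs with h
  · exact hf a l j (by omega)
  · rfl

theorem dbl_comm_mem (c : ℕ) (x y z t : FreeLieAlgebra F ℕ) : ⁅⁅x, y⁆, ⁅z, t⁆⁆ ∈ Tset F c := by
  intro a l j _
  rcases j with _ | j
  · exact cf_lie_zero a l _ _
  · rw [cf_lie_succ, lin_lie, lin_lie, zero_mul, zero_mul, sub_zero]

theorem metab_of {B : Type u} [LieRing B] [LieAlgebra F B] {n : ℕ}
    (h : ∀ f ∈ Tset F n, IsId B f) : Metab B := by
  intro a b c d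
  have h1 := h _ (dbl_comm_mem n (FreeLieAlgebra.of F 0) (FreeLieAlgebra.of F 1)
    (FreeLieAlgebra.of F 2) (FreeLieAlgebra.of F 3)) (fun i => ![a, b, c, d] (Fin.ofNat 4 i))
  rw [LieHom.map_lie, LieHom.map_lie, LieHom.map_lie, FreeLieAlgebra.lift_of_apply,
    FreeLieAlgebra.lift_of_apply, FreeLieAlgebra.lift_of_apply, FreeLieAlgebra.lift_of_apply] at h1
  exact h1

/-- main step: if `B` satisfies `Tset n` and an identity that is not in `Tset (k+1)`, and `k ≤ n`,
then `B` satisfies `Tset k`. -/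
theorem satisfies_Tset [CharZero F] {B : Type u} [LieRing B] [LieAlgebra F B] {n k : ℕ}
    (hB : ∀ f ∈ Tset F n, IsId B f) {f : FreeLieAlgebra F ℕ} (hf : IsId B f)
    (hk : f ∈ Tset F k) (hk' : f ∉ Tset F (k + 1)) {g : FreeLieAlgebra F ℕ} (hg : g ∈ Tset F k) :
    IsId B g := by
  have hc : ∃ a l, cf a l k f ≠ 0 := by
    by_contra hcon
    push Not at hcon
    apply hk'
    intro a l j hj
    rcases Nat.lt_succ_iff_lt_or_eq.1 hj with h | h
    · exact hk a l j h
    · rw [h]; exact hcon a l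
  obtain ⟨a, l, hc⟩ := hc
  have hm : Metab B := metab_of hB
  have hE : ∀ x y : B, ((T F x) ^ k) y = 0 := engel_of_id hf a l hc
  intro b
  obtain ⟨N, hN⟩ := exists_bound w1 g
  rw [← (hN N le_rfl).2, map_sum]
  refine Finset.sum_eq_zero fun d _ => ?_
  by_cases hd : k + 1 ≤ d
  · exact isId_of_engel hm hE hd (comp_mem_Hom w1 d g) b
  · exact hB _ (comp_mem_Tset n hg (by omega)) b

/-- Lie monomials of degree `m` -/
inductive IsMonomial : ℕ → FreeLieAlgebra F ℕ → Prop
  | of (i : ℕ) : IsMonomial 1 (FreeLieAlgebra.of F i)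
  | lie {m n : ℕ} {a b : FreeLieAlgebra F ℕ} : IsMonomial m a → IsMonomial n b →
      IsMonomial (m + n) ⁅a, b⁆

theorem IsMonomial.mem_Hom {m : ℕ} {f : FreeLieAlgebra F ℕ} (h : IsMonomial m f) :
    f ∈ Hom w1 m := by
  induction h with
  | of i => exact of_mem_Hom w1 i
  | lie _ _ ih1 ih2 => exact lie_mem_Hom w1 ih1 ih2

/-- the Lie polynomials of degree at most `N`: linear combinations of monomials of degree `≤ N` -/
def DegreeLE (N : ℕ) (f : FreeLieAlgebra F ℕ) : Prop :=
  f ∈ Submodule.span F {a : FreeLieAlgebra F ℕ | ∃ m ≤ N, IsMonomial m a}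

theorem cf_of_degreeLE {N : ℕ} {f : FreeLieAlgebra F ℕ} (hf : DegreeLE N f) (a : ℕ → F) (l j : ℕ)
    (hj : N ≤ j) : cf a l j f = 0 := by
  refine Submodule.span_induction (p := fun f _ => cf a l j f = 0) ?_ ?_ ?_ ?_ hf
  · rintro f ⟨m, hm, hf⟩
    exact cf_homog hf.mem_Hom a l j (by omega)
  · exact cf_zero a l j
  · intro f g _ _ hf hg
    rw [cf_add, hf, hg, add_zero]
  · intro c f _ hf
    rw [cf_smul, hf, mul_zero]

/-- the Lie algebra `F ⋉ F[X]` satisfies the elements of `Tset n` of degree at most `n` -/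
theorem isId_SD_poly {n : ℕ} (hn : 1 ≤ n) {f : FreeLieAlgebra F ℕ} (hf : f ∈ Tset F n)
    (hd : DegreeLE n f) : IsId (SD F F[X]) f := by
  intro b
  have hb : b = fun i => SD.mk (b i).1 (b i).2 := rfl
  have h0 : fox (fun i => (b i).1) f = 0 := by
    ext l j
    by_cases hj : j < n
    · exact hf _ l j hj
    · exact cf_of_degreeLE hd _ l j (by omega)
  have h1 : lin (fun i => (b i).1) f = 0 := lin_eq_zero fun l => hf _ l 0 hn
  rw [hb, lift_SD, h0, h1, map_zero]
  rfl

/-- the Engel elements -/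
noncomputable def eng (F : Type u) [Field F] : ℕ → FreeLieAlgebra F ℕ
  | 0 => FreeLieAlgebra.of F 0
  | n + 1 => ⁅eng F n, FreeLieAlgebra.of F 1⁆

theorem eng_monomial (n : ℕ) : IsMonomial (n + 1) (eng F n) := by
  induction n with
  | zero => exact IsMonomial.of 0
  | succ n ih => exact IsMonomial.lie ih (IsMonomial.of 1)

theorem eng_mem (n : ℕ) : eng F n ∈ Tset F n := fun a l j hj =>
  cf_homog (eng_monomial n).mem_Hom a l j (by omega)

theorem not_isId_eng (n : ℕ) : ¬ IsId (SD F F[X]) (eng F n) := by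
  intro h
  have key : ∀ n, FreeLieAlgebra.lift F (fun i => if i = 0 then SD.mk (M := F[X]) (0 : F) 1 else
      SD.mk 1 0) (eng F n) = SD.mk 0 (X ^ n) := by
    intro n
    induction n with
    | zero =>
      rw [eng, FreeLieAlgebra.lift_of_apply, if_pos rfl, pow_zero]
    | succ n ih =>
      rw [eng, LieHom.map_lie, ih, FreeLieAlgebra.lift_of_apply, if_neg (by decide)]
      refine SD.ext' rfl ?_
      rw [SD.lie_snd, SD.mk_fst, SD.mk_fst, SD.mk_snd, SD.mk_snd, SD.mk_snd, one_smul, zero_smul,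
        sub_zero, smul_eq_mul, pow_succ']
  have h1 := h (fun i => if i = 0 then SD.mk (M := F[X]) (0 : F) 1 else SD.mk 1 0)
  rw [key n] at h1
  have h2 : (X : F[X]) ^ n = 0 := congrArg Prod.snd h1
  exact pow_ne_zero n Polynomial.X_ne_zero h2

/-- the truncated module -/
abbrev QM (F : Type u) [Field F] (n : ℕ) : Type u := F[X] ⧸ (Ideal.span {(X : F[X]) ^ n})

theorem isId_SD_quot {n : ℕ} (hn : 1 ≤ n) {f : FreeLieAlgebra F ℕ} (hf : f ∈ Tset F n) :
    IsId (SD F (QM F n)) f := by
  intro b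
  have hb : b = fun i => SD.mk (b i).1 (b i).2 := rfl
  have h1 : lin (fun i => (b i).1) f = 0 := lin_eq_zero fun l => hf _ l 0 hn
  rw [hb, lift_SD, h1, Finsupp.linearCombination_apply, Finsupp.sum]
  have h2 : ∀ l ∈ (fox (fun i => (b i).1) f).support,
      (fox (fun i => (b i).1) f) l • (b l).2 = 0 := by
    intro l _
    have h3 : (X : F[X]) ^ n ∣ fox (fun i => (b i).1) f l := by
      rw [Polynomial.X_pow_dvd_iff]
      intro d hd
      exact hf _ l d hd
    obtain ⟨q, hq⟩ := h3
    obtain ⟨r, hr⟩ := Ideal.Quotient.mk_surjective (b l).2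
    rw [← hr, hq]
    change Ideal.Quotient.mk (Ideal.span {(X : F[X]) ^ n}) (X ^ n * q * r) = 0
    rw [Ideal.Quotient.eq_zero_iff_mem, Ideal.mem_span_singleton]
    exact ⟨q * r, by ring⟩
  rw [Finset.sum_eq_zero h2]
  rfl

theorem mem_Tset_of_isId {n : ℕ} {f : FreeLieAlgebra F ℕ} (h : IsId (SD F (QM F n)) f) :
    f ∈ Tset F n := by
  intro a l j hj
  have h1 := h (fun i => SD.mk (a i) (if i = l then (Ideal.Quotient.mk _ 1 : QM F n) else 0))
  rw [lift_SD, Finsupp.linearCombination_apply] at h1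
  have h2 := congrArg Prod.snd h1
  have h3 : (fox a f).sum (fun i p => p • (if i = l then (Ideal.Quotient.mk _ 1 : QM F n) else 0)) =
      (fox a f l) • (Ideal.Quotient.mk _ 1 : QM F n) := by
    rw [Finsupp.sum, Finset.sum_eq_single l]
    · rw [if_pos rfl]
    · intro i _ hi
      rw [if_neg hi, smul_zero]
    · intro hl
      rw [Finsupp.notMem_support_iff.1 hl, zero_smul]
  have h4 : (fox a f l) • (Ideal.Quotient.mk _ 1 : QM F n) = 0 := by
    rw [← h3]
    exact h2
  have h5 : Ideal.Quotient.mk (Ideal.span {(X : F[X]) ^ n}) (fox a f l * 1) = 0 := h4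
  rw [Ideal.Quotient.eq_zero_iff_mem, Ideal.mem_span_singleton, mul_one,
    Polynomial.X_pow_dvd_iff] at h5
  exact h5 j hj

end TSet

end Pool.Agent.Q274.DV
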